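import Mathlib

set_option autoImplicit false
set_option maxSynthPendingDepth 3

namespace Pool.Agent.Results.MP_5bfb0a_al.Yes

open Filter Topology Pointwise Set

variable {Γ : Type*} [Group Γ]

/-- `[Λ : Λ ∩ gΛg⁻¹] < ∞` for all `g`. -/
def Commensurated (Λ : Subgroup Γ) : Prop :=
  ∀ g : Γ, (Λ ⊓ Λ.map (MulAut.conj g).toMonoidHom).relIndex Λ ≠ 0

def AlmostCommutes [TopologicalSpace Γ] (Λ : Subgroup Γ) : Prop :=
  ∀ C : Set Γ, IsCompact C → ∃ C' : Set Γ, IsCompact C' ∧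
    C * (Λ : Set Γ) ⊆ (Λ : Set Γ) * C' ∧ (Λ : Set Γ) * C ⊆ C' * (Λ : Set Γ)

def Q (Λ : Subgroup Γ) {n : ℕ} (l : Fin n → Λ) (g : Γ) : Prop :=
  Pairwise fun i j => g * l i * (g * l j)⁻¹ ∉ Λ

lemma cover {Λ : Subgroup Γ} {n : ℕ} {l : Fin n → Λ} {g : Γ} (h : Q Λ l g)
    (h' : ¬ ∃ l : Fin (n + 1) → Λ, Q Λ l g) {x : Γ} (hx : x ∈ Λ) :
    ∃ y ∈ Λ, ∃ i, g * x = y * (g * l i) := by
  by_contra hc
  have h1 : ∀ i, g * x * (g * l i)⁻¹ ∉ Λ := fun i h1 => hc ⟨_, h1, i, by group⟩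
  refine h' ⟨Fin.cons ⟨x, hx⟩ l, fun i j => ?_⟩
  refine Fin.cases ?_ (fun i => ?_) i <;> refine Fin.cases ?_ (fun j => ?_) j
  · simp
  · exact fun _ => h1 j
  · exact fun _ h2 => h1 i (by simpa [mul_assoc] using inv_mem h2)
  · exact fun h2 => h fun h3 => h2 (congrArg _ h3)

lemma fin_ind {Λ : Subgroup Γ} (h : Commensurated Λ) (g : Γ) :
    ∃ n, ¬ ∃ l : Fin n → Λ, Q Λ l g := by
  let D := (Λ ⊓ Λ.map (MulAut.conj g⁻¹).toMonoidHom).subgroupOf Λ
  have : Finite (Λ ⧸ D) := Nat.finite_of_card_ne_zero (h g⁻¹)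
  refine ⟨Nat.card (Λ ⧸ D) + 1, fun ⟨l, hl⟩ => ?_⟩
  have h1 := Nat.card_le_card_of_injective (fun i => (((l i)⁻¹ : Λ) : Λ ⧸ D)) fun i j he => by
    by_contra hc
    obtain ⟨-, y, h2, h3⟩ := Subgroup.mem_subgroupOf.1 (QuotientGroup.eq.1 he)
    refine hl hc ?_
    have h4 : g⁻¹ * y * g = l i * (l j : Γ)⁻¹ := by simpa using h3
    rwa [show g * l i * (g * l j)⁻¹ = g * (l i * (l j : Γ)⁻¹) * g⁻¹ by group, ← h4,
      show g * (g⁻¹ * y * g) * g⁻¹ = y by group]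
  simp at h1

/-- every closed commensurated subgroup of a locally compact Hausdorff group almost commutes with
compacts. -/
theorem result {Γ : Type*} [Group Γ] [TopologicalSpace Γ] [IsTopologicalGroup Γ]
    [LocallyCompactSpace Γ] [T2Space Γ] (Λ : Subgroup Γ) (hc : IsClosed (Λ : Set Γ))
    (h : Commensurated Λ) : AlmostCommutes Λ := by
  classical
  have hQ : ∀ n (l : Fin n → Λ), IsOpen {g | Q Λ l g} := fun n l => by
    simp only [Q, Pairwise, ofPred_forall]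
    exact isOpen_iInter_of_finite fun i => isOpen_iInter_of_finite fun j =>
      isOpen_iInter_of_finite fun _ => hc.isOpen_compl.preimage
        (f := fun g : Γ => g * l i * (g * l j)⁻¹) (by fun_prop)
  have hP : ∀ n, IsOpen {g | ∃ l : Fin n → Λ, Q Λ l g} := fun n => by
    rw [ofPred_exists]; exact isOpen_iUnion (hQ n)
  have h0 : ∀ g, ∃ l : Fin 0 → Λ, Q Λ l g := fun g => ⟨Fin.elim0, Subsingleton.pairwise⟩
  have hB := nonempty_interior_of_iUnion_of_closed (fun n => (hP n).isClosed_compl)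
    (eq_univ_of_forall fun g => mem_iUnion.2 (fin_ind h g))
  obtain ⟨m, hm⟩ := Nat.exists_eq_add_one_of_ne_zero (n := Nat.find hB) fun h1 => by
    obtain ⟨g, hg⟩ := Nat.find_spec hB
    exact interior_subset hg (h1 ▸ h0 g)
  have h1 := Nat.find_spec hB
  have h2 := Nat.find_min hB (show m < _ by omega)
  rw [hm] at h1
  have h2' := interior_eq_empty_iff_dense_compl.1 (not_nonempty_iff_eq_empty.1 h2)
  rw [compl_compl] at h2'
  obtain ⟨g0, ⟨l, h3⟩, h4⟩ := h2'.exists_mem_open isOpen_interior h1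
  obtain ⟨W, w1, w2, w3⟩ := local_compact_nhds (((hQ m l).inter isOpen_interior).mem_nhds ⟨h3, h4⟩)
  have key : ∀ C : Set Γ, IsCompact C → ∃ K, IsCompact K ∧ C * (Λ : Set Γ) ⊆ (Λ : Set Γ) * K := by
    intro C hC
    refine hC.induction_on ⟨∅, isCompact_empty, by simp⟩
      (fun s t hst ⟨K, k1, k2⟩ => ⟨K, k1, (mul_subset_mul_right hst).trans k2⟩)
      (fun s t ⟨K, k1, k2⟩ ⟨K', k3, k4⟩ => ⟨K ∪ K', k1.union k3, by
        rw [union_mul, mul_union]; exact union_subset_union k2 k4⟩) fun g _ => ?_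
    have h5 := fin_ind h (g * g0⁻¹)
    obtain ⟨k, hk⟩ := Nat.exists_eq_add_one_of_ne_zero (n := Nat.find h5) fun h6 =>
      Nat.find_spec h5 (h6 ▸ h0 _)
    obtain ⟨l', h6⟩ := not_not.1 (Nat.find_min h5 (show k < _ by omega))
    refine ⟨(g * g0⁻¹) • W, mem_nhdsWithin_of_mem_nhds (by simpa using smul_mem_nhds_smul (g * g0⁻¹) w1),
      range (fun i => g * g0⁻¹ * l' i) * (W * range fun i => (l i : Γ)),
      (finite_range _).isCompact.mul (w3.mul (finite_range _).isCompact), ?_⟩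
    rintro _ ⟨_, ⟨w, hw, rfl⟩, x, hx, rfl⟩
    obtain ⟨y, hy, i, e1⟩ := cover (w2 hw).1 (interior_subset (w2 hw).2) hx
    obtain ⟨z, hz, j, e2⟩ := cover h6 (hk ▸ Nat.find_spec h5) hy
    refine ⟨z, hz, _, ⟨_, ⟨j, rfl⟩, _, ⟨w, hw, _, ⟨i, rfl⟩, rfl⟩, rfl⟩, ?_⟩
    simp only [smul_eq_mul]
    rw [← mul_assoc, ← e2, mul_assoc, ← e1, mul_assoc _ w]
  intro C hC
  obtain ⟨K, k1, k2⟩ := key C hC
  obtain ⟨K', k3, k4⟩ := key C⁻¹ hC.inv
  refine ⟨K ∪ K'⁻¹, k1.union k3.inv, k2.trans (mul_subset_mul_left subset_union_left),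
    Subset.trans ?_ (mul_subset_mul_right subset_union_right)⟩
  simpa using inv_subset_inv.2 k4

end Pool.Agent.Results.MP_5bfb0a_al.Yes
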